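import Pool.Agent.V11257.UFDiv

/-!
# A minimal ultrafilter for two-sided divisibility that is not minimal for finite embeddability
-/

set_option autoImplicit false

namespace Pool.Agent.Results.MP_b27926_lc.MinimalNotFE

open Pool.Agent.V11257.UFDiv

/-- `F` is minimal for the relation `ρ`: `F ≠ 1` and every `G` with `G ρ F` is `1` or satisfies
`G ρ F` and `F ρ G`. -/
def RelMinimal (ρ : Ultrafilter ℕ+ → Ultrafilter ℕ+ → Prop) (F : Ultrafilter ℕ+) : Prop :=
  F ≠ pure 1 ∧ ∀ G, ρ G F → G = pure 1 ∨ (ρ G F ∧ ρ F G)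

/-- Some ultrafilter, even on the second level (containing the set of the products of two primes), is
minimal for two-sided divisibility but not minimal for finite embeddability. -/
theorem result : ∃ F : Ultrafilter ℕ+, Lev 2 ∈ F ∧ RelMinimal MDvd F ∧ ¬ RelMinimal FE F := by
  refine ⟨F, Lev_two_mem_F, ⟨F_ne_one, fun G hG => ?_⟩, fun h => ?_⟩
  · rcases dvd_F hG with h | h
    · exact Or.inl h
    · subst h
      exact Or.inr ⟨hG, hG⟩
  · rcases h.2 P P_FE_F with h1 | ⟨-, h1⟩
    · exact P_ne_one h1
    · exact not_F_FE_P h1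

end Pool.Agent.Results.MP_b27926_lc.MinimalNotFE
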